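import Pool.Agent.Work.MP_bda6fa_cnl.PBC
import Pool.Agent.Work.MP_bda6fa_cnl.E_FKB
import Pool.Agent.Work.MP_bda6fa_cnl.E_MON
import Pool.Agent.Work.MP_bda6fa_cnl.E_NUM
import Pool.Agent.Work.MP_bda6fa_cnl.E_KAP
import Pool.Agent.Work.MP_bda6fa_cnl.E_GEN
import Pool.Agent.Work.MP_bda6fa_cnl.E_XBP
import Pool.Agent.Work.MP_bda6fa_cnl.E_MKB
import Pool.Agent.Work.MP_bda6fa_cnl.E_LCN
import Pool.Agent.Work.MP_bda6fa_cnl.E_CCB
set_option autoImplicit false

namespace Pool.Agent.Results.MP_bda6fa_pr.CriticalNestedLoops

open XorIsing CNB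
open scoped Classical

/-- Critical XOR-Ising model on the triangular lattice, exp (-2 β) = 1/√3, arbitrary finite domains and boundary conditions.
box n is the set of sites with coordinates at most n in absolute value, shift y (box n) its translate by y. For all m, j and
ε > 0 there is N such that for every site y, all finite sets Λ, Λ' of free sites containing y + box N, all finite sets F, F'
of edges containing all edges which meet y + box N, and all finite sets ξ, ξ' of fixed minus spins disjoint from Λ, Λ' (the
other spins outside are +): for two independent Ising configurations σ, σ' with these data, with probability at least 1 - ε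
at least j loops of τ = σ σ' surround all faces of y + box m and surround only faces of y + box N. (F = near Λ: boundary
condition ξ; F = inn Λ with Λ containing the neighbours of y + box N: free boundary condition.) -/
theorem result (β : ℝ) (hβ : Real.exp (-2 * β) = 1 / Real.sqrt 3) (m j : ℕ) (ε : ℝ) (hε : 0 < ε) :
    ∃ N : ℕ, ∀ (y : V) (Λ Λ' : Finset V) (F F' : Finset Edge) (ξ ξ' : Finset V),
      shift y (XorIsing.box N) ⊆ Λ → shift y (XorIsing.box N) ⊆ Λ' →
      near (shift y (XorIsing.box N)) ⊆ F → near (shift y (XorIsing.box N)) ⊆ F' → Disjoint ξ Λ → Disjoint ξ' Λ' →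
      1 - ε ≤ xorB β Λ Λ' F F' ξ ξ'
        (fun X => j ≤ nloopsIn X (shift y (XorIsing.box m)) (shift y (XorIsing.box N))) := by
  have hb : β = XorIsing.bc := by
    have h1 : Real.exp (-2 * β) = Real.exp (-2 * XorIsing.bc) := hβ.trans bc_crit.symm
    have h2 := Real.exp_injective h1
    linarith
  subst hb
  have hMON := p_MON p_FKB
  have hXBP := p_XBP (p_GEN (p_KAP hMON (p_NUM hMON)))
  exact nested_bc p_CCB hXBP p_MKB p_LCN m j hε

end Pool.Agent.Results.MP_bda6fa_pr.CriticalNestedLoops
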