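import Pool.Agent.Work.MP_bda6fa_XOR.PartA
set_option autoImplicit false

namespace Pool.Agent.Results.MP_bda6fa_pr.EvenLoops

open XorIsing
open scoped Classical

/-- XOR-Ising model on the triangular lattice in a finite domain D with connected complement, + boundary conditions for both
copies, any β. For all finite sets A, P of faces: the probability that every XOR loop surrounds an even
number of faces of A and that the faces of A surrounded by an odd number of loops are exactly those in P, is at least
2^(-|A|) times the sum over the subsets B of A of (-1)^(|B ∩ P|) times the product of the Ising correlations of A minus B and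
of B; and the probability that every XOR loop surrounds an even number of faces of A is at least the Ising correlation of A. -/
theorem result (β : ℝ) (D : Finset V) (hD : CoConn D) (A P : Finset V) :
    (1 / 2) ^ A.card * ∑ B ∈ A.powerset, (-1) ^ (B ∩ P).card * (corr β D (A \ B) * corr β D B) ≤
      xorP β D (fun X => (∀ L ∈ loops X, Even (A.filter (fun a => Surrounds L a)).card) ∧
        ∀ a ∈ A, (Odd (nloops X a) ↔ a ∈ P)) ∧
    corr β D A ≤ xorP β D (fun X => ∀ L ∈ loops X, Even (A.filter (fun a => Surrounds L a)).card) :=
  ⟨partA β hD A P, partA_sum β hD A⟩

end Pool.Agent.Results.MP_bda6fa_pr.EvenLoops
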