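import Pool.Agent.Work.MP_bda6fa_XOR.PartC
set_option autoImplicit false

namespace Pool.Agent.Results.MP_bda6fa_pr.LoopLength

open XorIsing
open scoped Classical

/-- XOR-Ising model on the triangular lattice in a finite domain D with connected complement, + boundary conditions for both
copies, any β. (1) For every finite set A of faces the expected length of the only XOR loop surrounding an odd number of faces
of A (0 if there is not exactly one such loop) is at least half the absolute value of the β-derivative of the Ising
correlation of A; for A = {x}: the loop surrounding x if there is exactly one. (2) The expectation of the sum of the squared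
lengths of all XOR loops is at least half the second β-derivative of the logarithm of the Ising partition function. -/
theorem result (β : ℝ) (D : Finset V) (hD : CoConn D) :
    (∀ A : Finset V, 1 / 2 * |deriv (fun b => corr b D A) β| ≤ xorE β D (uniqueLen A)) ∧
    1 / 2 * deriv (deriv (fun b => Real.log (ZZ b D))) β ≤ xorE β D (fun X => ∑ L ∈ loops X, (L.card : ℝ) ^ 2) :=
  ⟨fun A => partC β hD A, partC2 β hD⟩

end Pool.Agent.Results.MP_bda6fa_pr.LoopLength
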