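import Pool.Agent.Work.MP_bda6fa_XOR.PartB
set_option autoImplicit false

namespace Pool.Agent.Results.MP_bda6fa_pr.MacroLoops

open XorIsing
open scoped Classical

/-- XOR-Ising model on the triangular lattice in a finite domain D, + boundary conditions for both copies, any β ≥ 0.
Let Q_i (i < k) be lattice triangles (corner a i, side n i) and let φ be the probability, in the wired random-cluster model
on D with q = 2 and p = 1 - exp(-2 β), that no two of Q_0, ..., Q_(k-1) and the outside of D are connected. Then for every set
s of indices, with probability at least 2^(-k) (1 - (1 - φ)^2) every Q_i contains a connected set K_i of faces touching the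
three sides of Q_i, such that every XOR loop surrounds all or none of K_i, and the number of XOR loops surrounding K_i is odd
for i in s and even for i not in s. -/
theorem result (β : ℝ) (hβ : 0 ≤ β) (D : Finset V) (k : ℕ) (a : Fin k → V) (n : Fin k → ℕ) (s : Finset (Fin k)) :
    (1 / 2) ^ k * (1 - (1 - fkP β D (Sep D a n)) ^ 2) ≤ xorP β D (Pat a n s) :=
  partB hβ D a n s

end Pool.Agent.Results.MP_bda6fa_pr.MacroLoops
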